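import Pool.Agent.H2.G1.Stmts

/-!
# Genus one: the valid data are the coordinates of the points of the cells
-/

open Finset

namespace Pool.Agent.H43.G1

open Pool.Agent.H95.TB Pool.Agent.H95.G1 Pool.Agent.H2.G1

lemma ED_eq {d e : ED} (hb : d.b = e.b) (ha0 : d.al 0 = e.al 0) (ha1 : d.al 1 = e.al 1) (ha2 : d.al 2 = e.al 2)
    (h0 : d.be 0 = e.be 0) (h1 : d.be 1 = e.be 1) (h2 : d.be 2 = e.be 2) (hp : d.p = e.p) (hT : d.T = e.T) :
    d = e := by
  obtain ⟨b, al, be, p, T⟩ := d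
  obtain ⟨b', al', be', p', T'⟩ := e
  simp only at hb ha0 ha1 ha2 h0 h1 h2 hp hT
  subst hb hp hT
  have e1 : al = al' := by funext i; fin_cases i; exacts [ha0, ha1, ha2]
  have e2 : be = be' := by funext i; fin_cases i; exacts [h0, h1, h2]
  rw [e1, e2]

lemma w_true {d : ED} (h : d.b = true) : d.w = 3 * d.be 0 + d.be 1 + d.be 2 := by
  unfold ED.w; rw [h, Fin.sum_univ_three]; simp [nv]

lemma w_false {d : ED} (h : d.b = false) : d.w = 2 * d.be 0 + d.be 1 + d.be 2 := by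
  unfold ED.w; rw [h, Fin.sum_univ_three]; simp [nv]

/-- a point of a cell -/
lemma mk_cell (f : Fin 24) (x0 x1 x2 x3 x4 : ℝ) {d : ED} (h0 : 0 ≤ x0) (h1 : 0 ≤ x1) (h2 : 0 ≤ x2) (h3 : 0 ≤ x3)
    (h4 : 0 ≤ x4) (hs : x0 + x1 + x2 + x3 + x4 = 1) (h : ed f ![x0, x1, x2, x3, x4] = d) :
    ∃ f P, Sim P ∧ ed f P = d := by
  refine ⟨f, ![x0, x1, x2, x3, x4], ⟨fun s => ?_, ?_⟩, h⟩
  · fin_cases s <;> assumption
  · rw [Fin.sum_univ_five]; exact hs

lemma real_t_0 {d : ED} (hb : d.b = true) (hd : Valid d) (T0 : 0 ≤ d.T) (T1 : d.T ≤ d.w)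
    (z0 : d.al 0 = 0) (z1 : d.al 1 = 0) (z2 : d.al 2 = 0) : ∃ f P, Sim P ∧ ed f P = d := by
  have a0 := hd.al0 0; have a1 := hd.al0 1; have a2 := hd.al0 2
  have b0 := hd.be0 0; have b1 := hd.be0 1; have b2 := hd.be0 2
  have hp := hd.p0; have hs := hd.sum
  rw [w_true hb] at T1
  rcases le_total d.T (d.be 0) with t0 | t0
  · refine mk_cell 0 (d.be 0 - d.T) (d.be 1) d.T (d.be 2) d.p (by linarith) (by linarith) (by linarith) (by linarith)
      (by linarith) (by linarith) (ED_eq ?_ ?_ ?_ ?_ ?_ ?_ ?_ ?_ ?_) <;>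
      (simp [ed, tb, tbL, Fin.sum_univ_five, *]; try linarith)
  · rcases le_total d.T (d.be 0 + d.be 1) with t1 | t1
    · refine mk_cell 1 (d.be 1 - (d.T - (d.be 0))) (d.be 0) (d.be 2) (d.T - (d.be 0)) d.p (by linarith) (by linarith) (by linarith) (by linarith)
        (by linarith) (by linarith) (ED_eq ?_ ?_ ?_ ?_ ?_ ?_ ?_ ?_ ?_) <;>
        (simp [ed, tb, tbL, Fin.sum_univ_five, *]; try linarith)
    · rcases le_total d.T (d.be 0 + d.be 1 + d.be 0) with t2 | t2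
      · refine mk_cell 2 (d.be 0 - (d.T - (d.be 0 + d.be 1))) (d.be 2) (d.T - (d.be 0 + d.be 1)) (d.be 1) d.p (by linarith) (by linarith) (by linarith) (by linarith)
          (by linarith) (by linarith) (ED_eq ?_ ?_ ?_ ?_ ?_ ?_ ?_ ?_ ?_) <;>
          (simp [ed, tb, tbL, Fin.sum_univ_five, *]; try linarith)
      · rcases le_total d.T (d.be 0 + d.be 1 + d.be 0 + d.be 2) with t3 | t3
        · refine mk_cell 3 (d.be 2 - (d.T - (d.be 0 + d.be 1 + d.be 0))) (d.be 0) (d.be 1) (d.T - (d.be 0 + d.be 1 + d.be 0)) d.p (by linarith) (by linarith) (by linarith) (by linarith)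
            (by linarith) (by linarith) (ED_eq ?_ ?_ ?_ ?_ ?_ ?_ ?_ ?_ ?_) <;>
            (simp [ed, tb, tbL, Fin.sum_univ_five, *]; try linarith)
        · refine mk_cell 4 (d.be 0 - (d.T - (d.be 0 + d.be 1 + d.be 0 + d.be 2))) (d.T - (d.be 0 + d.be 1 + d.be 0 + d.be 2)) (d.be 1) (d.be 2) d.p (by linarith) (by linarith) (by linarith) (by linarith)
            (by linarith) (by linarith) (ED_eq ?_ ?_ ?_ ?_ ?_ ?_ ?_ ?_ ?_) <;>
            (simp [ed, tb, tbL, Fin.sum_univ_five, *]; try linarith)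

lemma real_t_1 {d : ED} (hb : d.b = true) (hd : Valid d) (T0 : 0 ≤ d.T) (T1 : d.T ≤ d.w)
    (z1 : d.al 1 = 0) (z2 : d.al 2 = 0) (zp : d.p = 0) : ∃ f P, Sim P ∧ ed f P = d := by
  have a0 := hd.al0 0; have a1 := hd.al0 1; have a2 := hd.al0 2
  have b0 := hd.be0 0; have b1 := hd.be0 1; have b2 := hd.be0 2
  have hp := hd.p0; have hs := hd.sum
  rw [w_true hb] at T1
  rcases le_total d.T (d.be 0) with t0 | t0
  · refine mk_cell 5 (d.al 0) (d.be 0 - d.T) (d.be 1) d.T (d.be 2) (by linarith) (by linarith) (by linarith) (by linarith)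
      (by linarith) (by linarith) (ED_eq ?_ ?_ ?_ ?_ ?_ ?_ ?_ ?_ ?_) <;>
      (simp [ed, tb, tbL, Fin.sum_univ_five, *]; try linarith)
  · rcases le_total d.T (d.be 0 + d.be 1) with t1 | t1
    · refine mk_cell 6 (d.al 0) (d.be 1 - (d.T - (d.be 0))) (d.be 0) (d.be 2) (d.T - (d.be 0)) (by linarith) (by linarith) (by linarith) (by linarith)
        (by linarith) (by linarith) (ED_eq ?_ ?_ ?_ ?_ ?_ ?_ ?_ ?_ ?_) <;>
        (simp [ed, tb, tbL, Fin.sum_univ_five, *]; try linarith)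
    · rcases le_total d.T (d.be 0 + d.be 1 + d.be 0) with t2 | t2
      · refine mk_cell 7 (d.al 0) (d.be 0 - (d.T - (d.be 0 + d.be 1))) (d.be 2) (d.T - (d.be 0 + d.be 1)) (d.be 1) (by linarith) (by linarith) (by linarith) (by linarith)
          (by linarith) (by linarith) (ED_eq ?_ ?_ ?_ ?_ ?_ ?_ ?_ ?_ ?_) <;>
          (simp [ed, tb, tbL, Fin.sum_univ_five, *]; try linarith)
      · rcases le_total d.T (d.be 0 + d.be 1 + d.be 0 + d.be 2) with t3 | t3
        · refine mk_cell 8 (d.al 0) (d.be 2 - (d.T - (d.be 0 + d.be 1 + d.be 0))) (d.be 0) (d.be 1) (d.T - (d.be 0 + d.be 1 + d.be 0)) (by linarith) (by linarith) (by linarith) (by linarith)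
            (by linarith) (by linarith) (ED_eq ?_ ?_ ?_ ?_ ?_ ?_ ?_ ?_ ?_) <;>
            (simp [ed, tb, tbL, Fin.sum_univ_five, *]; try linarith)
        · refine mk_cell 9 (d.al 0) (d.be 0 - (d.T - (d.be 0 + d.be 1 + d.be 0 + d.be 2))) (d.T - (d.be 0 + d.be 1 + d.be 0 + d.be 2)) (d.be 1) (d.be 2) (by linarith) (by linarith) (by linarith) (by linarith)
            (by linarith) (by linarith) (ED_eq ?_ ?_ ?_ ?_ ?_ ?_ ?_ ?_ ?_) <;>
            (simp [ed, tb, tbL, Fin.sum_univ_five, *]; try linarith)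

lemma real_t_2 {d : ED} (hb : d.b = true) (hd : Valid d) (T0 : 0 ≤ d.T) (T1 : d.T ≤ d.w)
    (z2 : d.al 2 = 0) (z3 : d.be 0 = 0) (zp : d.p = 0) : ∃ f P, Sim P ∧ ed f P = d := by
  have a0 := hd.al0 0; have a1 := hd.al0 1; have a2 := hd.al0 2
  have b0 := hd.be0 0; have b1 := hd.be0 1; have b2 := hd.be0 2
  have hp := hd.p0; have hs := hd.sum
  rw [w_true hb] at T1
  rcases le_total d.T (d.be 1) with t0 | t0
  · refine mk_cell 10 (d.al 0) (d.al 1) (d.be 1 - d.T) (d.be 2) d.T (by linarith) (by linarith) (by linarith) (by linarith)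
      (by linarith) (by linarith) (ED_eq ?_ ?_ ?_ ?_ ?_ ?_ ?_ ?_ ?_) <;>
      (simp [ed, tb, tbL, Fin.sum_univ_five, *]; try linarith)
  · refine mk_cell 11 (d.al 0) (d.al 1) (d.be 2 - (d.T - (d.be 1))) (d.be 1) (d.T - (d.be 1)) (by linarith) (by linarith) (by linarith) (by linarith)
      (by linarith) (by linarith) (ED_eq ?_ ?_ ?_ ?_ ?_ ?_ ?_ ?_ ?_) <;>
      (simp [ed, tb, tbL, Fin.sum_univ_five, *]; try linarith)

lemma real_t_3 {d : ED} (hb : d.b = true) (hd : Valid d) (T0 : 0 ≤ d.T) (T1 : d.T ≤ d.w)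
    (z3 : d.be 0 = 0) (z4 : d.be 1 = 0) (zp : d.p = 0) : ∃ f P, Sim P ∧ ed f P = d := by
  have a0 := hd.al0 0; have a1 := hd.al0 1; have a2 := hd.al0 2
  have b0 := hd.be0 0; have b1 := hd.be0 1; have b2 := hd.be0 2
  have hp := hd.p0; have hs := hd.sum
  rw [w_true hb] at T1
  refine mk_cell 12 (d.al 0) (d.al 1) (d.al 2) (d.be 2 - d.T) d.T (by linarith) (by linarith) (by linarith) (by linarith)
    (by linarith) (by linarith) (ED_eq ?_ ?_ ?_ ?_ ?_ ?_ ?_ ?_ ?_) <;>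
    (simp [ed, tb, tbL, Fin.sum_univ_five, *]; try linarith)

lemma real_f_0 {d : ED} (hb : d.b = false) (hd : Valid d) (T0 : 0 ≤ d.T) (T1 : d.T ≤ d.w)
    (z0 : d.al 0 = 0) (z1 : d.al 1 = 0) (z2 : d.al 2 = 0) : ∃ f P, Sim P ∧ ed f P = d := by
  have a0 := hd.al0 0; have a1 := hd.al0 1; have a2 := hd.al0 2
  have b0 := hd.be0 0; have b1 := hd.be0 1; have b2 := hd.be0 2
  have hp := hd.p0; have hs := hd.sum
  rw [w_false hb] at T1
  rcases le_total d.T (d.be 0) with t0 | t0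
  · refine mk_cell 13 (d.be 0 - d.T) (d.be 1) d.T (d.be 2) d.p (by linarith) (by linarith) (by linarith) (by linarith)
      (by linarith) (by linarith) (ED_eq ?_ ?_ ?_ ?_ ?_ ?_ ?_ ?_ ?_) <;>
      (simp [ed, tb, tbL, Fin.sum_univ_five, *]; try linarith)
  · rcases le_total d.T (d.be 0 + d.be 1) with t1 | t1
    · refine mk_cell 14 (d.be 1 - (d.T - (d.be 0))) (d.be 0) (d.be 2) (d.T - (d.be 0)) d.p (by linarith) (by linarith) (by linarith) (by linarith)
        (by linarith) (by linarith) (ED_eq ?_ ?_ ?_ ?_ ?_ ?_ ?_ ?_ ?_) <;>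
        (simp [ed, tb, tbL, Fin.sum_univ_five, *]; try linarith)
    · rcases le_total d.T (d.be 0 + d.be 1 + d.be 0) with t2 | t2
      · refine mk_cell 15 (d.be 0 - (d.T - (d.be 0 + d.be 1))) (d.be 2) (d.T - (d.be 0 + d.be 1)) (d.be 1) d.p (by linarith) (by linarith) (by linarith) (by linarith)
          (by linarith) (by linarith) (ED_eq ?_ ?_ ?_ ?_ ?_ ?_ ?_ ?_ ?_) <;>
          (simp [ed, tb, tbL, Fin.sum_univ_five, *]; try linarith)
      · refine mk_cell 16 (d.be 2 - (d.T - (d.be 0 + d.be 1 + d.be 0))) (d.be 0) (d.be 1) (d.T - (d.be 0 + d.be 1 + d.be 0)) d.p (by linarith) (by linarith) (by linarith) (by linarith)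
          (by linarith) (by linarith) (ED_eq ?_ ?_ ?_ ?_ ?_ ?_ ?_ ?_ ?_) <;>
          (simp [ed, tb, tbL, Fin.sum_univ_five, *]; try linarith)

lemma real_f_1 {d : ED} (hb : d.b = false) (hd : Valid d) (T0 : 0 ≤ d.T) (T1 : d.T ≤ d.w)
    (z1 : d.al 1 = 0) (z2 : d.al 2 = 0) (zp : d.p = 0) : ∃ f P, Sim P ∧ ed f P = d := by
  have a0 := hd.al0 0; have a1 := hd.al0 1; have a2 := hd.al0 2
  have b0 := hd.be0 0; have b1 := hd.be0 1; have b2 := hd.be0 2
  have hp := hd.p0; have hs := hd.sum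
  rw [w_false hb] at T1
  rcases le_total d.T (d.be 0) with t0 | t0
  · refine mk_cell 17 (d.al 0) (d.be 0 - d.T) (d.be 1) d.T (d.be 2) (by linarith) (by linarith) (by linarith) (by linarith)
      (by linarith) (by linarith) (ED_eq ?_ ?_ ?_ ?_ ?_ ?_ ?_ ?_ ?_) <;>
      (simp [ed, tb, tbL, Fin.sum_univ_five, *]; try linarith)
  · rcases le_total d.T (d.be 0 + d.be 1) with t1 | t1
    · refine mk_cell 18 (d.al 0) (d.be 1 - (d.T - (d.be 0))) (d.be 0) (d.be 2) (d.T - (d.be 0)) (by linarith) (by linarith) (by linarith) (by linarith)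
        (by linarith) (by linarith) (ED_eq ?_ ?_ ?_ ?_ ?_ ?_ ?_ ?_ ?_) <;>
        (simp [ed, tb, tbL, Fin.sum_univ_five, *]; try linarith)
    · rcases le_total d.T (d.be 0 + d.be 1 + d.be 0) with t2 | t2
      · refine mk_cell 19 (d.al 0) (d.be 0 - (d.T - (d.be 0 + d.be 1))) (d.be 2) (d.T - (d.be 0 + d.be 1)) (d.be 1) (by linarith) (by linarith) (by linarith) (by linarith)
          (by linarith) (by linarith) (ED_eq ?_ ?_ ?_ ?_ ?_ ?_ ?_ ?_ ?_) <;>
          (simp [ed, tb, tbL, Fin.sum_univ_five, *]; try linarith)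
      · refine mk_cell 20 (d.al 0) (d.be 2 - (d.T - (d.be 0 + d.be 1 + d.be 0))) (d.be 0) (d.be 1) (d.T - (d.be 0 + d.be 1 + d.be 0)) (by linarith) (by linarith) (by linarith) (by linarith)
          (by linarith) (by linarith) (ED_eq ?_ ?_ ?_ ?_ ?_ ?_ ?_ ?_ ?_) <;>
          (simp [ed, tb, tbL, Fin.sum_univ_five, *]; try linarith)

lemma real_f_2 {d : ED} (hb : d.b = false) (hd : Valid d) (T0 : 0 ≤ d.T) (T1 : d.T ≤ d.w)
    (z2 : d.al 2 = 0) (z3 : d.be 0 = 0) (zp : d.p = 0) : ∃ f P, Sim P ∧ ed f P = d := by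
  have a0 := hd.al0 0; have a1 := hd.al0 1; have a2 := hd.al0 2
  have b0 := hd.be0 0; have b1 := hd.be0 1; have b2 := hd.be0 2
  have hp := hd.p0; have hs := hd.sum
  rw [w_false hb] at T1
  rcases le_total d.T (d.be 1) with t0 | t0
  · refine mk_cell 21 (d.al 0) (d.al 1) (d.be 1 - d.T) (d.be 2) d.T (by linarith) (by linarith) (by linarith) (by linarith)
      (by linarith) (by linarith) (ED_eq ?_ ?_ ?_ ?_ ?_ ?_ ?_ ?_ ?_) <;>
      (simp [ed, tb, tbL, Fin.sum_univ_five, *]; try linarith)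
  · refine mk_cell 22 (d.al 0) (d.al 1) (d.be 2 - (d.T - (d.be 1))) (d.be 1) (d.T - (d.be 1)) (by linarith) (by linarith) (by linarith) (by linarith)
      (by linarith) (by linarith) (ED_eq ?_ ?_ ?_ ?_ ?_ ?_ ?_ ?_ ?_) <;>
      (simp [ed, tb, tbL, Fin.sum_univ_five, *]; try linarith)

lemma real_f_3 {d : ED} (hb : d.b = false) (hd : Valid d) (T0 : 0 ≤ d.T) (T1 : d.T ≤ d.w)
    (z3 : d.be 0 = 0) (z4 : d.be 1 = 0) (zp : d.p = 0) : ∃ f P, Sim P ∧ ed f P = d := by
  have a0 := hd.al0 0; have a1 := hd.al0 1; have a2 := hd.al0 2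
  have b0 := hd.be0 0; have b1 := hd.be0 1; have b2 := hd.be0 2
  have hp := hd.p0; have hs := hd.sum
  rw [w_false hb] at T1
  refine mk_cell 23 (d.al 0) (d.al 1) (d.al 2) (d.be 2 - d.T) d.T (by linarith) (by linarith) (by linarith) (by linarith)
    (by linarith) (by linarith) (ED_eq ?_ ?_ ?_ ?_ ?_ ?_ ?_ ?_ ?_) <;>
    (simp [ed, tb, tbL, Fin.sum_univ_five, *]; try linarith)

theorem real : REAL := by
  intro d hd T0 T1
  have h1 : d.al 1 = 0 ∨ d.be 0 = 0 := by
    rcases (hd.al0 1).eq_or_lt with h | h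
    · exact Or.inl h.symm
    · rcases (hd.be0 0).eq_or_lt with h' | h'
      · exact Or.inr h'.symm
      · exact absurd (hd.chain 1 0 h h') (by decide)
  have h2 : d.al 2 = 0 ∨ (d.be 0 = 0 ∧ d.be 1 = 0) := by
    rcases (hd.al0 2).eq_or_lt with h | h
    · exact Or.inl h.symm
    · right
      constructor
      · rcases (hd.be0 0).eq_or_lt with h' | h'
        · exact h'.symm
        · exact absurd (hd.chain 2 0 h h') (by decide)
      · rcases (hd.be0 1).eq_or_lt with h' | h'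
        · exact h'.symm
        · exact absurd (hd.chain 2 1 h h') (by decide)
  by_cases hal : d.al 0 = 0 ∧ d.al 1 = 0 ∧ d.al 2 = 0
  · obtain ⟨z0, z1, z2⟩ := hal
    cases hb : d.b
    · exact real_f_0 hb hd T0 T1 z0 z1 z2
    · exact real_t_0 hb hd T0 T1 z0 z1 z2
  · have hp : d.p = 0 := by
      by_contra h
      have := hd.cone (lt_of_le_of_ne hd.p0 (Ne.symm h))
      exact hal ⟨this 0, this 1, this 2⟩
    rcases h2 with h2 | ⟨h2, h3⟩
    · rcases h1 with h1 | h1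
      · cases hb : d.b
        · exact real_f_1 hb hd T0 T1 h1 h2 hp
        · exact real_t_1 hb hd T0 T1 h1 h2 hp
      · cases hb : d.b
        · exact real_f_2 hb hd T0 T1 h2 h1 hp
        · exact real_t_2 hb hd T0 T1 h2 h1 hp
    · cases hb : d.b
      · exact real_f_3 hb hd T0 T1 h2 h3 hp
      · exact real_t_3 hb hd T0 T1 h2 h3 hp

/-! ## The coordinates of a point of a cell are valid -/

lemma exists_pos_of_sum {g : Fin 5 → ℝ} {q : Fin 5 → Prop} [DecidablePred q]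
    (h : 0 < ∑ s, if q s then g s else 0) : ∃ s, q s := by
  by_contra hc
  push Not at hc
  have : (∑ s, if q s then g s else 0) = 0 := Finset.sum_eq_zero fun s _ => if_neg (hc s)
  linarith

lemma tab_chain : ∀ (f : Fin 24) (s s' : Fin 5) (y y' : Fin 3), tb f s % 8 = y.1 → tb f s' % 8 = 4 + y'.1 → y ≤ y' := by
  decide +kernel

lemma tab_cone : ∀ (f : Fin 24) (s s' : Fin 5) (y : Fin 3), tb f s % 8 = y.1 → tb f s' % 8 = 3 → False := by
  decide +kernel

lemma tab_split : ∀ (f : Fin 24) (s : Fin 5),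
    (((if tb f s % 8 = 0 then 1 else 0) + (if tb f s % 8 = 1 then 1 else 0) + (if tb f s % 8 = 2 then 1 else 0) +
      (if tb f s % 8 = 4 then 1 else 0) + (if tb f s % 8 = 5 then 1 else 0) + (if tb f s % 8 = 6 then 1 else 0) +
      (if tb f s % 8 = 3 then 1 else 0)) : ℕ) = 1 := by decide +kernel

/-- multiplicities of the letters -/
def nn (b : Bool) (y : ℕ) : ℕ := if y = 0 then (if b = true then 3 else 2) else 1

lemma nv_eq (b : Bool) (y : Fin 3) : nv b y = (nn b y.1 : ℝ) := by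
  cases b <;> fin_cases y <;> simp [nv, nn]

lemma tab_T : ∀ (f : Fin 24) (s : Fin 5), tb f s / 8 ≤
    (if tb f s % 8 = 4 then nn (decide (f.1 < 13)) 0 else 0) + (if tb f s % 8 = 5 then nn (decide (f.1 < 13)) 1 else 0)
      + (if tb f s % 8 = 6 then nn (decide (f.1 < 13)) 2 else 0) := by decide +kernel

lemma ed_al (f : Fin 24) (P : Fin 5 → ℝ) (y : Fin 3) : (ed f P).al y = ∑ s, if tb f s % 8 = y.1 then P s else 0 := rfl
lemma ed_be (f : Fin 24) (P : Fin 5 → ℝ) (y : Fin 3) :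
    (ed f P).be y = ∑ s, if tb f s % 8 = 4 + y.1 then P s else 0 := rfl
lemma ed_p (f : Fin 24) (P : Fin 5 → ℝ) : (ed f P).p = ∑ s, if tb f s % 8 = 3 then P s else 0 := rfl
lemma ed_T (f : Fin 24) (P : Fin 5 → ℝ) : (ed f P).T = ∑ s, ((tb f s / 8 : ℕ) : ℝ) * P s := rfl

theorem val : VAL := by
  intro f P hP
  have hP0 := hP.1
  have nonneg : ∀ q : Fin 5 → Prop, ∀ [DecidablePred q], 0 ≤ ∑ s, if q s then P s else 0 := by
    intro q _
    refine Finset.sum_nonneg fun s _ => ?_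
    split_ifs
    · exact hP0 s
    · exact le_refl _
  refine ⟨⟨fun y => ?_, fun y => ?_, ?_, ?_, ?_, ?_⟩, ?_, ?_⟩
  · rw [ed_al]; exact nonneg _
  · rw [ed_be]; exact nonneg _
  · rw [ed_p]; exact nonneg _
  · rw [← hP.2]
    show (∑ s, if tb f s % 8 = 0 then P s else 0) + (∑ s, if tb f s % 8 = 1 then P s else 0) +
      (∑ s, if tb f s % 8 = 2 then P s else 0) + ((∑ s, if tb f s % 8 = 4 + 0 then P s else 0) +
      (∑ s, if tb f s % 8 = 4 + 1 then P s else 0) + (∑ s, if tb f s % 8 = 4 + 2 then P s else 0)) +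
      (∑ s, if tb f s % 8 = 3 then P s else 0) = ∑ s, P s
    simp only [← Finset.sum_add_distrib]
    refine Finset.sum_congr rfl fun s _ => ?_
    have h := tab_split f s
    have h' : (((if tb f s % 8 = 0 then 1 else 0) + (if tb f s % 8 = 1 then 1 else 0) + (if tb f s % 8 = 2 then 1 else 0) +
      (if tb f s % 8 = 4 then 1 else 0) + (if tb f s % 8 = 5 then 1 else 0) + (if tb f s % 8 = 6 then 1 else 0) +
      (if tb f s % 8 = 3 then 1 else 0)) : ℝ) = 1 := by exact_mod_cast h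
    calc _ = (((if tb f s % 8 = 0 then 1 else 0) + (if tb f s % 8 = 1 then 1 else 0) +
      (if tb f s % 8 = 2 then 1 else 0) +
      (if tb f s % 8 = 4 then 1 else 0) + (if tb f s % 8 = 5 then 1 else 0) + (if tb f s % 8 = 6 then 1 else 0) +
      (if tb f s % 8 = 3 then 1 else 0)) : ℝ) * P s := by
          simp only [add_mul, ite_mul, one_mul, zero_mul]
          ring
      _ = P s := by rw [h', one_mul]
  · intro y y' h h'
    rw [ed_al] at h
    rw [ed_be] at h'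
    obtain ⟨s, hs⟩ := exists_pos_of_sum h
    obtain ⟨s', hs'⟩ := exists_pos_of_sum h'
    exact tab_chain f s s' y y' hs hs'
  · intro h y
    rw [ed_p] at h
    rw [ed_al]
    obtain ⟨s, hs⟩ := exists_pos_of_sum h
    refine Finset.sum_eq_zero fun s' _ => if_neg fun hs' => tab_cone f s' s y hs' hs
  · rw [ed_T]
    exact Finset.sum_nonneg fun s _ => mul_nonneg (Nat.cast_nonneg _) (hP0 s)
  · show (∑ s, ((tb f s / 8 : ℕ) : ℝ) * P s) ≤ ∑ y : Fin 3, nv (decide (f.1 < 13)) y * ∑ s, if tb f s % 8 = 4 + y.1 then P s else 0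
    rw [Fin.sum_univ_three]
    simp only [Finset.mul_sum, ← Finset.sum_add_distrib, nv_eq]
    refine Finset.sum_le_sum fun s _ => ?_
    have h := tab_T f s
    have h' : ((tb f s / 8 : ℕ) : ℝ) ≤ (if tb f s % 8 = 4 then (nn (decide (f.1 < 13)) 0 : ℝ) else 0) +
      (if tb f s % 8 = 5 then (nn (decide (f.1 < 13)) 1 : ℝ) else 0)
      + (if tb f s % 8 = 6 then (nn (decide (f.1 < 13)) 2 : ℝ) else 0) := by exact_mod_cast h
    refine (mul_le_mul_of_nonneg_right h' (hP0 s)).trans (le_of_eq ?_)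
    simp only [add_mul, ite_mul, zero_mul, mul_ite, mul_zero]
    rfl

end Pool.Agent.H43.G1
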