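import Pool.Agent.H2.G1.Stmts

/-!
# Genus one: every nonzero vector of `ℂ²` is a vector of the base, up to the weighted action and scaling
-/

open Finset

namespace Pool.Agent.H43.G1

open Pool.Agent.H95.TB Pool.Agent.H95.G1

/-- polar form with an angle -/
lemma exists_ee (z : ℂ) : ∃ t : ℝ, z = (‖z‖ : ℂ) * ee t := by
  obtain ⟨t, _, _, h⟩ := exists_polar z
  by_cases hz : ‖z‖ = 0
  · refine ⟨t, ?_⟩
    rw [hz]; simpa using hz
  · refine ⟨t, ?_⟩
    rw [φ_eq, mul_div_assoc, div_self hz, mul_one] at h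
    exact h

lemma ee_congr {s t : ℝ} (n : ℤ) (h : s = t + n) : ee s = ee t := by rw [h, ee_add_int]

/-- reduction modulo `1 / 3` -/
lemma exists_third (m : ℕ) (hm : 0 < m) (x : ℝ) : ∃ (k : ℤ) (u : ℝ), 0 ≤ u ∧ u ≤ 1 ∧ x = (k + u) / m := by
  have hm' : (0 : ℝ) < m := by exact_mod_cast hm
  refine ⟨⌊x * m⌋, Int.fract (x * m), Int.fract_nonneg _, (Int.fract_lt_one _).le, ?_⟩
  rw [Int.floor_add_fract]
  field_simp

theorem base_surj (x y : ℂ) (h : ¬ (x = 0 ∧ y = 0)) : ∃ (b : Bool) (p : Fin 3 → ℝ) (t : ℝ), (∀ i, 0 ≤ p i) ∧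
    p 0 + p 1 + p 2 = 1 ∧ x = ((max ‖x‖ ‖y‖ : ℝ) : ℂ) * (ee (3 * t) * (Vb b p).1) ∧
    y = ((max ‖x‖ ‖y‖ : ℝ) : ℂ) * (ee (4 * t) * (Vb b p).2) := by
  obtain ⟨s, hs⟩ := exists_ee x
  obtain ⟨r, hr⟩ := exists_ee y
  rcases le_total ‖y‖ ‖x‖ with hle | hle
  · -- the first triangle
    have hx : 0 < ‖x‖ := by
      rw [norm_pos_iff]
      intro h0
      rw [h0, norm_zero] at hle
      exact h ⟨h0, norm_le_zero_iff.1 hle⟩
    rw [max_eq_left hle]
    obtain ⟨k, u, hu0, hu1, hk⟩ := exists_third 3 (by norm_num) (r - 4 * (s / 3))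
    set ρ := ‖y‖ / ‖x‖ with hρ
    have hρ0 : 0 ≤ ρ := by positivity
    have hρ1 : ρ ≤ 1 := (div_le_one hx).2 hle
    refine ⟨true, ![1 - ρ, ρ * (1 - u), ρ * u], (s + k) / 3, ?_, ?_, ?_, ?_⟩
    · intro i
      fin_cases i
      · simpa using hρ1
      · exact mul_nonneg hρ0 (by linarith)
      · exact mul_nonneg hρ0 hu0
    · simp; ring
    · have e1 : ee (3 * ((s + k) / 3)) = ee s := ee_congr k (by ring)
      rw [e1, Vb, if_pos rfl]
      simpa using hs
    · have e1 : (Vb true ![1 - ρ, ρ * (1 - u), ρ * u]).2 = φ ρ (ρ * u / 3) := by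
        rw [Vb, if_pos rfl]
        simp only [Matrix.cons_val_one, Matrix.cons_val_two, Matrix.cons_val_zero]
        congr 1
        simp; ring
      rw [e1, φ_eq]
      by_cases h0 : ρ = 0
      · rw [h0]
        have : ‖y‖ = 0 := by
          rw [hρ, div_eq_zero_iff] at h0
          rcases h0 with h0 | h0
          · exact h0
          · exact absurd h0 hx.ne'
        rw [norm_eq_zero] at this
        rw [this]; simp
      · have e2 : ee r = ee (4 * ((s + k) / 3)) * ee (ρ * u / 3 / ρ) := by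
          rw [← ee_add]
          refine ee_congr (-k) ?_
          have : ρ * u / 3 / ρ = u / 3 := by field_simp
          rw [this]
          push_cast at hk ⊢
          linarith
        have e3 : ((‖x‖ : ℝ) : ℂ) * (ρ : ℂ) = (‖y‖ : ℂ) := by
          rw [hρ]; push_cast
          have : ((‖x‖ : ℝ) : ℂ) ≠ 0 := by exact_mod_cast hx.ne'
          field_simp
        calc y = (‖y‖ : ℂ) * ee r := hr
          _ = _ := by rw [e2, ← e3]; ring
  · -- the second triangle
    have hx : 0 < ‖y‖ := by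
      rw [norm_pos_iff]
      intro h0
      rw [h0, norm_zero] at hle
      exact h ⟨norm_le_zero_iff.1 hle, h0⟩
    rw [max_eq_right hle]
    obtain ⟨k, u, hu0, hu1, hk⟩ := exists_third 4 (by norm_num) (-(s - 3 * (r / 4)))
    set ρ := ‖x‖ / ‖y‖ with hρ
    have hρ0 : 0 ≤ ρ := by positivity
    have hρ1 : ρ ≤ 1 := (div_le_one hx).2 hle
    refine ⟨false, ![1 - ρ, ρ * (1 - u), ρ * u], (r + k) / 4, ?_, ?_, ?_, ?_⟩
    · intro i
      fin_cases i
      · simpa using hρ1
      · exact mul_nonneg hρ0 (by linarith)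
      · exact mul_nonneg hρ0 hu0
    · simp; ring
    · have e1 : (Vb false ![1 - ρ, ρ * (1 - u), ρ * u]).1 = φ ρ (-(ρ * u / 4)) := by
        rw [Vb, if_neg (by decide)]
        simp only [Matrix.cons_val_one, Matrix.cons_val_two, Matrix.cons_val_zero]
        congr 1
        simp; ring
      rw [e1, φ_eq]
      by_cases h0 : ρ = 0
      · rw [h0]
        have : ‖x‖ = 0 := by
          rw [hρ, div_eq_zero_iff] at h0
          rcases h0 with h0 | h0
          · exact h0
          · exact absurd h0 hx.ne'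
        rw [norm_eq_zero] at this
        rw [this]; simp
      · have e2 : ee s = ee (3 * ((r + k) / 4)) * ee (-(ρ * u / 4) / ρ) := by
          rw [← ee_add]
          refine ee_congr (-k) ?_
          have : -(ρ * u / 4) / ρ = -(u / 4) := by field_simp
          rw [this]
          push_cast at hk ⊢
          linarith
        have e3 : ((‖y‖ : ℝ) : ℂ) * (ρ : ℂ) = (‖x‖ : ℂ) := by
          rw [hρ]; push_cast
          have : ((‖y‖ : ℝ) : ℂ) ≠ 0 := by exact_mod_cast hx.ne'
          field_simp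
        calc x = (‖x‖ : ℂ) * ee s := hs
          _ = _ := by rw [e2, ← e3]; ring
    · have e1 : ee (4 * ((r + k) / 4)) = ee r := ee_congr k (by ring)
      rw [e1, Vb, if_neg (by decide)]
      simpa using hr

theorem bsurj : Pool.Agent.H2.G1.BSURJ := by
  intro x y h
  obtain ⟨b, p, t, h0, h1, hx, hy⟩ := base_surj x y (by
    rintro ⟨h1, h2⟩
    rcases h with h | h
    · exact h h1
    · exact h h2)
  refine ⟨b, p, ⟨h0, by rw [Fin.sum_univ_three]; exact h1⟩, t, max ‖x‖ ‖y‖, ?_, ?_, ?_⟩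
  · rcases h with h | h
    · exact lt_max_of_lt_left (norm_pos_iff.2 h)
    · exact lt_max_of_lt_right (norm_pos_iff.2 h)
  · rw [mul_assoc]; exact hx
  · rw [mul_assoc]; exact hy

end Pool.Agent.H43.G1
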